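import Pool.Agent.Helper49.QL.Defs
import Pool.Agent.Helper33.QU.Dom

/-! QL6, QL6R: dominance for fibre products of quadric bundles and norm bundles. -/

set_option autoImplicit false

namespace Pool.Agent.Helper33.QL

open Matrix Pool.Agent.Helper49.QU Pool.Agent.Helper49.QL Pool.Agent.Helper33.QU
open Pool.Agent.Helper18.CL (nf)
open Pool.Agent.Helper65.CB AlgebraicGeometry CategoryTheory Pool.Agent.Helper15

theorem map_nf {R S : Type*} [CommRing R] [CommRing S] (f : R →+* S) {l : ℕ} [NeZero l] (a : R)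
    (x : Fin l → R) : f (nf a x) = nf (f a) (fun k => f (x k)) := by
  unfold nf
  rw [RingHom.map_det]
  congr 1
  ext p q
  rw [RingHom.mapMatrix_apply, Matrix.map_apply, Matrix.of_apply, Matrix.of_apply, map_mul]
  split_ifs with h
  · rw [map_one]
  · rfl

theorem nf_two {R : Type*} [CommRing R] (a : R) (x : Fin 2 → R) :
    nf a x = x 0 ^ 2 - a * x 1 ^ 2 := by
  unfold nf
  rw [Matrix.det_fin_two]
  simp only [Matrix.of_apply]
  have h1 : (1 : Fin 2) - 0 = 1 := by decide
  have h2 : (0 : Fin 2) - 1 = 1 := by decide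
  have h3 : (1 : Fin 2) - 1 = 0 := by decide
  have h4 : (0 : Fin 2) - 0 = 0 := by decide
  have h5 : ¬ (1 : Fin 2) ≤ 0 := by decide
  rw [h1, h2, h3, h4, if_pos (le_refl _), if_pos (le_refl _), if_pos (by decide), if_neg h5]
  ring

theorem nf_single {R : Type*} [CommRing R] {l : ℕ} [NeZero l] (a y : R) :
    nf a (fun k : Fin l => if k = 0 then y else 0) = y ^ l := by
  unfold nf
  have h1 : (Matrix.of fun p q : Fin l => (if p ≤ q then 1 else a) *
      (if q - p = 0 then y else 0)) = Matrix.diagonal (fun _ => y) := by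
    ext p q
    rw [Matrix.of_apply, Matrix.diagonal_apply]
    by_cases h : p = q
    · subst h
      rw [sub_self, if_pos (le_refl _), if_pos rfl, if_pos rfl, one_mul]
    · have h2 : ¬ q - p = 0 := fun h3 => h (sub_eq_zero.1 h3).symm
      rw [if_neg h2, if_neg h, mul_zero]
  rw [h1, Matrix.det_diagonal, Finset.prod_const, Finset.card_univ, Fintype.card_fin]

variable {r s : ℕ} {N : Fin r → ℕ}

/-- dominance for rings given by their universal properties, with norm factors -/
theorem dominated_coreZ {K A E R C : Type} [Field K] [CommRing A] [Algebra K A] [CommRing E]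
    [Algebra K E] [CommRing R] [Algebra K R] [Algebra A R] [IsScalarTower K A R] [CommRing C]
    [Algebra K C] [Algebra E C] [IsScalarTower K E C] [Nontrivial R] (ι : A →ₐ[K] E) (δ : A)
    (hδR : IsUnit (algebraMap A R δ)) (B : ∀ i : Fin r, Matrix (Fin (N i)) (Fin (N i)) A)
    (hB : ∀ i, (B i).IsSymm) (v : ∀ i : Fin r, Fin 3 → Fin (N i) → A)
    (hv1 : ∀ i, D1 (B i) (v i) ∣ δ) (hv2 : ∀ i, D2 (B i) (v i) ∣ δ)
    (g : ∀ i : Fin r, Fin 3 → Fin (N i) → E)
    (hE : ∀ val : ∀ i : Fin r, Fin 3 → Fin (N i) → R, ∃ ρ : E →+* R,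
      (∀ x, ρ (ι x) = algebraMap A R x) ∧ ∀ i c j, ρ (g i c j) = val i c j)
    (l : Fin s → ℕ) [∀ j, NeZero (l j)] (c d : Fin s → A)
    (u0 : ∀ i, Fin (N i) → R)
    (hu0 : ∀ i, bil ((B i).map (algebraMap A R)) (u0 i) (u0 i) = 0)
    (z0 : ∀ j, Fin (l j) → R)
    (hz0 : ∀ j, nf (algebraMap A R (c j)) (z0 j) = algebraMap A R (d j))
    (liftR : ∀ {S : Type} [CommRing S] (f : A →+* S), IsUnit (f δ) → ∀ (u : ∀ i, Fin (N i) → S)
      (z : ∀ j, Fin (l j) → S),
      (∀ i, bil ((B i).map f) (u i) (u i) = 0) → (∀ j, nf (f (c j)) (z j) = f (d j)) →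
      ∃ φ : R →+* S, (∀ x, φ (algebraMap A R x) = f x) ∧ (∀ i j, φ (u0 i j) = u i j) ∧
        ∀ j k, φ (z0 j k) = z j k)
    (extR : ∀ f g : R →+* R, (∀ x : A, f (algebraMap A R x) = g (algebraMap A R x)) →
      (∀ i j, f (u0 i j) = g (u0 i j)) → (∀ j k, f (z0 j k) = g (z0 j k)) → f = g)
    (a b : Fin r → E) (ha : ∀ i, a i = qa ((B i).map ι) (g i))
    (hb : ∀ i, b i = qb ((B i).map ι) (g i)) (p q : Fin r → C)
    (hpq : ∀ i, p i ^ 2 = algebraMap E C (a i) * q i ^ 2 + algebraMap E C (b i))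
    (zC : ∀ j, Fin (l j) → C)
    (hzC : ∀ j, nf (algebraMap E C (ι (c j))) (zC j) = algebraMap E C (ι (d j)))
    (liftC : ∀ {S : Type} [CommRing S] (f : E →+* S) (x y : Fin r → S) (z : ∀ j, Fin (l j) → S),
      (∀ i, x i ^ 2 = f (a i) * y i ^ 2 + f (b i)) →
      (∀ j, nf (f (ι (c j))) (z j) = f (ι (d j))) → ∃ θ : C →+* S,
        (∀ e, θ (algebraMap E C e) = f e) ∧ (∀ i, θ (p i) = x i) ∧ (∀ i, θ (q i) = y i) ∧
          ∀ j k, θ (zC j k) = z j k) :
    DominatedOver K (Spec (CommRingCat.of R)) (Spec (CommRingCat.of C))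
      (Spec.map (CommRingCat.ofHom (algebraMap K R)))
      (Spec.map (CommRingCat.ofHom (algebraMap K C))) := by
  -- the retraction
  have hu1 : ∀ i, IsUnit (D1 ((B i).map (algebraMap A R)) (fun c j => algebraMap A R (v i c j))) := by
    intro i
    rw [← map_D1]
    exact isUnit_of_dvd_unit (map_dvd (algebraMap A R) (hv1 i)) hδR
  have hu2 : ∀ i, IsUnit (D2 ((B i).map (algebraMap A R)) (fun c j => algebraMap A R (v i c j))) := by
    intro i
    rw [← map_D2]
    exact isUnit_of_dvd_unit (map_dvd (algebraMap A R) (hv2 i)) hδR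
  have hex : ∀ i, ∃ (w : Fin (N i) → R) (x y : R),
      x ^ 2 = qa ((B i).map (algebraMap A R)) (![fun j => algebraMap A R (v i 0 j),
        fun j => algebraMap A R (v i 1 j), w]) * y ^ 2 +
        qb ((B i).map (algebraMap A R)) (![fun j => algebraMap A R (v i 0 j),
        fun j => algebraMap A R (v i 1 j), w]) ∧
      upt ((B i).map (algebraMap A R)) (![fun j => algebraMap A R (v i 0 j),
        fun j => algebraMap A R (v i 1 j), w]) x y = u0 i := fun i =>
    Pool.Agent.Helper92.QU.exists_upt _ (isSymm_map _ (hB i)) _ (hu1 i) (hu2 i) _ (hu0 i)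
  choose w x y hxy hup using hex
  obtain ⟨ρ, hρA, hρv⟩ := hE (fun i => ![fun j => algebraMap A R (v i 0 j),
        fun j => algebraMap A R (v i 1 j), w i])
  have hBρ : ∀ i, ((B i).map ι).map ρ = (B i).map (algebraMap A R) := by
    intro i
    ext j k
    rw [Matrix.map_apply, Matrix.map_apply, Matrix.map_apply, hρA]
  have hρa : ∀ i, ρ (a i) = qa ((B i).map (algebraMap A R)) (![fun j => algebraMap A R (v i 0 j),
        fun j => algebraMap A R (v i 1 j), w i]) := by
    intro i
    rw [ha, map_qa, hBρ]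
    congr 1
    funext c j
    exact hρv i c j
  have hρb : ∀ i, ρ (b i) = qb ((B i).map (algebraMap A R)) (![fun j => algebraMap A R (v i 0 j),
        fun j => algebraMap A R (v i 1 j), w i]) := by
    intro i
    rw [hb, map_qb, hBρ]
    congr 1
    funext c j
    exact hρv i c j
  obtain ⟨θ1, hθE, hθp, hθq, hθz⟩ := liftC ρ x y z0 (fun i => by rw [hρa, hρb]; exact hxy i)
    (fun j => by rw [hρA, hρA]; exact hz0 j)
  have hunit : IsUnit (θ1 (algebraMap E C (ι δ))) := by
    rw [hθE, hρA]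
    exact hδR
  obtain ⟨θ, hθ⟩ : ∃ θ : Localization.Away (algebraMap E C (ι δ)) →+* R,
      ∀ c, θ (algebraMap C _ c) = θ1 c :=
    ⟨IsLocalization.Away.lift (algebraMap E C (ι δ)) hunit,
      fun c => IsLocalization.Away.lift_eq (algebraMap E C (ι δ)) hunit c⟩
  -- the section
  obtain ⟨f, hf⟩ : ∃ f : E →+* Localization.Away (algebraMap E C (ι δ)),
      ∀ e, f e = algebraMap C _ (algebraMap E C e) :=
    ⟨(algebraMap C _).comp (algebraMap E C), fun e => rfl⟩
  have hfa : ∀ i, f (a i) = qa ((B i).map (f.comp (ι : A →+* E))) (fun c j => f (g i c j)) := by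
    intro i
    rw [ha, map_qa]
    rfl
  have hfb : ∀ i, f (b i) = qb ((B i).map (f.comp (ι : A →+* E))) (fun c j => f (g i c j)) := by
    intro i
    rw [hb, map_qb]
    rfl
  obtain ⟨φ1, hφA, hφu, hφz⟩ := liftR (f.comp (ι : A →+* E)) (by
      show IsUnit (f (ι δ))
      rw [hf]
      exact IsLocalization.Away.algebraMap_isUnit (algebraMap E C (ι δ)))
    (fun i => upt ((B i).map (f.comp (ι : A →+* E))) (fun c j => f (g i c j))
      (algebraMap C _ (p i)) (algebraMap C _ (q i)))
    (fun j k => algebraMap C _ (zC j k)) (fun i => by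
      rw [Pool.Agent.Helper92.QU.bil_upt _ (isSymm_map _ (hB i)), ← hfa, ← hfb, hf, hf]
      have h5 := congrArg (algebraMap C (Localization.Away (algebraMap E C (ι δ)))) (hpq i)
      rw [map_add, map_mul, map_pow, map_pow] at h5
      rw [h5]
      ring) (fun j => by
      have h5 := congrArg (algebraMap C (Localization.Away (algebraMap E C (ι δ)))) (hzC j)
      rw [map_nf] at h5
      show nf (f (ι (c j))) _ = f (ι (d j))
      rw [hf, hf]
      exact h5)
  let φ : R →ₐ[K] Localization.Away (algebraMap E C (ι δ)) :=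
    { φ1 with
      commutes' := fun k => by
        show φ1 (algebraMap K R k) = _
        rw [IsScalarTower.algebraMap_apply K A R k, hφA]
        show f (ι (algebraMap K A k)) = _
        rw [ι.commutes, hf, ← IsScalarTower.algebraMap_apply K E C k,
          ← IsScalarTower.algebraMap_apply K C (Localization.Away (algebraMap E C (ι δ))) k] }
  have hθf : ∀ e, θ (f e) = ρ e := fun e => by rw [hf, hθ, hθE]
  have hBθ : ∀ i, ((B i).map (f.comp (ι : A →+* E))).map θ = (B i).map (algebraMap A R) := by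
    intro i
    ext j k
    rw [Matrix.map_apply, Matrix.map_apply, Matrix.map_apply]
    show θ (f (ι (B i j k))) = _
    rw [hθf, hρA]
  have hcomp : θ.comp φ1 = RingHom.id R := by
    refine extR _ _ (fun x => ?_) (fun i j => ?_) fun j k => ?_
    · show θ (φ1 (algebraMap A R x)) = algebraMap A R x
      rw [hφA]
      show θ (f (ι x)) = _
      rw [hθf, hρA]
    · show θ (φ1 (u0 i j)) = u0 i j
      rw [hφu, map_upt, hBθ, hθ, hθ, hθp, hθq, ← congrFun (hup i) j]
      congr 1
      funext c j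
      rw [hθf]
      exact hρv i c j
    · show θ (φ1 (z0 j k)) = z0 j k
      rw [hφz, hθ, hθz]
  exact Pool.Agent.Helper33.CB.dominatedOver_of_retract K R C
    (Localization.Away (algebraMap E C (ι δ))) (algebraMap E C (ι δ)) φ θ
    (fun x => congrArg (fun f : R →+* R => f x) hcomp)

end Pool.Agent.Helper33.QL
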