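import Pool.Agent.Helper33.QL.Rings
import Pool.Agent.Helper33.RelQ.Dom
import Pool.Agent.Helper83.RelL.QL

/-! QL6, QL6R: dominance for fibre products of quadric bundles and norm bundles. -/

set_option autoImplicit false

namespace Pool.Agent.Helper33.QL

open Matrix Pool.Agent.Helper49.QU Pool.Agent.Helper49.QL Pool.Agent.Helper33.QU
open Pool.Agent.Helper18.CL (nf)
open Pool.Agent.Helper83.RelL (amixR bmixR)
open Pool.Agent.Helper83.RelQ (incR gvR aQR bQR)
open Pool.Agent.Helper65.CB AlgebraicGeometry CategoryTheory Pool.Agent.Helper15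

variable {r s : ℕ} {N : Fin r → ℕ}

/-- dominance over an arbitrary base -/
theorem dominated_gen {K A E : Type} [Field K] [CommRing A] [IsDomain A] [Algebra K A]
    [CommRing E] [Algebra K E] (ι : A →ₐ[K] E)
    (B : ∀ i : Fin r, Matrix (Fin (N i)) (Fin (N i)) A) (hB : ∀ i, (B i).IsSymm)
    (v : ∀ i : Fin r, Fin 3 → Fin (N i) → A) (g : ∀ i : Fin r, Fin 3 → Fin (N i) → E)
    (hE : ∀ {S : Type} [CommRing S] (f : A →+* S) (val : ∀ i : Fin r, Fin 3 → Fin (N i) → S),
      ∃ ρ : E →+* S, (∀ x, ρ (ι x) = f x) ∧ ∀ i c j, ρ (g i c j) = val i c j)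
    (l : Fin s → ℕ) [∀ j, NeZero (l j)] (a b : Fin s → A) (δ : A)
    (hδ : δ = ∏ i, D1 (B i) (v i) * D2 (B i) (v i)) (hδ0 : δ ≠ 0) (aE bE : Fin r ⊕ Fin s → E)
    (ha : ∀ i, aE (Sum.inl i) = qa ((B i).map ι) (g i))
    (hb : ∀ i, bE (Sum.inl i) = qb ((B i).map ι) (g i))
    (ha' : ∀ j, aE (Sum.inr j) = ι (a j)) (hb' : ∀ j, bE (Sum.inr j) = ι (b j)) :
    DominatedOver K (Spec (CommRingCat.of (QLRing B l a b δ)))
      (Spec (CommRingCat.of (NRing (lmix r l) aE bE)))
      (Spec.map (CommRingCat.ofHom (algebraMap K (QLRing B l a b δ))))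
      (Spec.map (CommRingCat.ofHom (algebraMap K (NRing (lmix r l) aE bE)))) := by
  have hnt := ql_nontrivial B l a b δ hδ0
  have hδR : IsUnit (algebraMap A (QLRing B l a b δ) δ) := by
    rw [IsScalarTower.algebraMap_apply A (Localization.Away δ) (QLRing B l a b δ)]
    exact (IsLocalization.Away.algebraMap_isUnit (S := Localization.Away δ) δ).map
      (algebraMap (Localization.Away δ) (QLRing B l a b δ))
  have hdiv : ∀ i, D1 (B i) (v i) * D2 (B i) (v i) ∣ δ := by
    intro i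
    rw [hδ]
    exact Finset.dvd_prod_of_mem (fun i => D1 (B i) (v i) * D2 (B i) (v i)) (Finset.mem_univ i)
  exact dominated_coreZ ι δ hδR B hB v
    (fun i => (Dvd.intro _ rfl).trans (hdiv i)) (fun i => (Dvd.intro_left _ rfl).trans (hdiv i))
    g (fun val => hE (algebraMap A (QLRing B l a b δ)) val) l a b
    (fun i j => qmk B l a b δ (MvPolynomial.X (Sum.inl ⟨i, j⟩))) (ql_rel B l a b δ)
    (fun j k => qmk B l a b δ (MvPolynomial.X (Sum.inr ⟨j, k⟩))) (ql_rel' B l a b δ)
    (fun f hf u z hu hz => ql_lift B l a b δ f hf u z hu hz)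
    (fun f g h1 h2 h3 => ql_ext B l a b δ f g h1 h2 h3)
    (fun i => aE (Sum.inl i)) (fun i => bE (Sum.inl i)) ha hb
    (fun i => cpt l aE bE i 0) (fun i => cpt l aE bE i 1) (fun i => nr_rel_inl l aE bE i)
    (npt l aE bE) (fun j => by
      have h1 := nr_rel_inr l aE bE j
      rwa [ha', hb'] at h1)
    (fun f x y z h hz => nr_lift l aE bE f x y z h (fun j => by rw [ha', hb']; exact hz j))

/-- **QL6R.** -/
theorem dominatedQLR {K : Type} [Field K] {A : Type} [CommRing A] [IsDomain A] [Algebra K A]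
    {n : ℕ} (B : ∀ i : Fin r, Matrix (Fin (N i)) (Fin (N i)) (MvPolynomial (Fin n) A))
    (hB : ∀ i, (B i).IsSymm) (l : Fin s → ℕ) [∀ j, NeZero (l j)]
    (a b : Fin s → MvPolynomial (Fin n) A) (v : ∀ i : Fin r, Fin 3 → Fin (N i) → A)
    (δ : MvPolynomial (Fin n) A)
    (hδ : δ = ∏ i, D1 (B i) (fun c j => MvPolynomial.C (v i c j)) *
      D2 (B i) (fun c j => MvPolynomial.C (v i c j))) (hδ0 : δ ≠ 0) :
    DominatedOver K (Spec (CommRingCat.of (QLRing B l a b δ)))
      (Spec (CommRingCat.of (NRing (lmix r l) (amixR B a) (bmixR B b))))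
      (Spec.map (CommRingCat.ofHom (algebraMap K (QLRing B l a b δ))))
      (Spec.map (CommRingCat.ofHom (algebraMap K
        (NRing (lmix r l) (amixR B a) (bmixR B b))))) :=
  dominated_gen ((incR n N A).restrictScalars K) B hB (fun i c j => MvPolynomial.C (v i c j))
    (gvR n N A) (fun f val => Pool.Agent.Helper33.RelQ.exists_rhoR f val) l a b δ hδ hδ0
    (amixR B a) (bmixR B b) (fun _ => rfl) (fun _ => rfl) (fun _ => rfl) (fun _ => rfl)

/-- values of a homomorphism on the old and the new variables, over a field -/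
theorem exists_rhoK {K : Type} [Field K] {n : ℕ} {S : Type} [CommRing S]
    (f : MvPolynomial (Fin n) K →+* S) (val : ∀ i : Fin r, Fin 3 → Fin (N i) → S) :
    ∃ ρ : MvPolynomial (Fin (vn N + n)) K →+* S,
      (∀ x, ρ (inc n N K x) = f x) ∧ ∀ i c j, ρ (gv n N K i c j) = val i c j :=
  Pool.Agent.Helper33.RelQ.exists_rhoR f val

/-- **QL6.** -/
theorem dominated {K : Type} [Field K] [CharZero K] {n r s : ℕ} {N : Fin r → ℕ}
    (B : ∀ i : Fin r, Matrix (Fin (N i)) (Fin (N i)) (MvPolynomial (Fin n) K))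
    (hB : ∀ i, (B i).IsSymm) (v : ∀ i : Fin r, Fin 3 → Fin (N i) → K)
    (l : Fin s → ℕ) [∀ j, NeZero (l j)] (a b : Fin s → MvPolynomial (Fin n) K)
    (δ : MvPolynomial (Fin n) K)
    (hδ : δ = ∏ i, D1 (B i) (fun c j => MvPolynomial.C (v i c j)) *
      D2 (B i) (fun c j => MvPolynomial.C (v i c j)))
    (hδ0 : δ ≠ 0) :
    DominatedOver K (Spec (CommRingCat.of (QLRing B l a b δ)))
      (Spec (CommRingCat.of (NRing (lmix r l) (amix B a) (bmix B b))))
      (Spec.map (CommRingCat.ofHom (algebraMap K (QLRing B l a b δ))))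
      (Spec.map (CommRingCat.ofHom (algebraMap K
        (NRing (lmix r l) (amix B a) (bmix B b))))) :=
  dominated_gen (inc n N K) B hB (fun i c j => MvPolynomial.C (v i c j))
    (gv n N K) (fun f val => exists_rhoK f val) l a b δ hδ hδ0
    (amix B a) (bmix B b) (fun _ => rfl) (fun _ => rfl) (fun _ => rfl) (fun _ => rfl)

end Pool.Agent.Helper33.QL
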