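import Pool.Agent.Helper33.QL.Core

/-! QL6, QL6R: homomorphisms out of the coordinate rings. -/

set_option autoImplicit false

namespace Pool.Agent.Helper33.QL

open Matrix Pool.Agent.Helper49.QU Pool.Agent.Helper49.QL Pool.Agent.Helper33.QU
open Pool.Agent.Helper18.CL (nf)

/-- homomorphisms out of a quotient by a family of equations -/
theorem span_lift {P S : Type*} [CommRing P] [CommRing S] {ι : Type*} (e : ι → P) (φ0 : P →+* S)
    (h : ∀ i, φ0 (e i) = 0) :
    ∃ φ : P ⧸ Ideal.span (Set.range e) →+* S, ∀ x, φ (Ideal.Quotient.mk _ x) = φ0 x := by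
  have hker : ∀ p ∈ Ideal.span (Set.range e), φ0 p = 0 := by
    intro p hp
    refine (Ideal.span_le (I := RingHom.ker φ0)).2 ?_ hp
    rintro _ ⟨i, rfl⟩
    exact h i
  exact ⟨Ideal.Quotient.lift _ φ0 hker, fun x => Ideal.Quotient.lift_mk _ _ _⟩

theorem span_rel {P : Type*} [CommRing P] {ι : Type*} (e : ι → P) (i : ι) :
    Ideal.Quotient.mk (Ideal.span (Set.range e)) (e i) = 0 :=
  Ideal.Quotient.eq_zero_iff_mem.2 (Ideal.subset_span ⟨i, rfl⟩)

section QL

variable {A : Type} [CommRing A] {r s : ℕ} {N : Fin r → ℕ}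
  (B : ∀ i : Fin r, Matrix (Fin (N i)) (Fin (N i)) A) (l : Fin s → ℕ) [∀ j, NeZero (l j)]
  (a b : Fin s → A) (δ : A)

/-- the polynomial ring of `QLRing` -/
abbrev QLPol (r : ℕ) {s : ℕ} (N : Fin r → ℕ) (l : Fin s → ℕ) (δ : A) : Type :=
  MvPolynomial ((Σ i : Fin r, Fin (N i)) ⊕ (Σ j : Fin s, Fin (l j))) (Localization.Away δ)

/-- the equations of `QLRing` -/
noncomputable def qleq : Fin r ⊕ Fin s → QLPol r N l δ :=
  Sum.elim
      (fun i : Fin r => (∑ j, ∑ k, MvPolynomial.C (algebraMap A (Localization.Away δ) (B i j k)) *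
        MvPolynomial.X (Sum.inl ⟨i, j⟩) * MvPolynomial.X (Sum.inl ⟨i, k⟩) : QLPol r N l δ))
      (fun j : Fin s => (nf (MvPolynomial.C (algebraMap A (Localization.Away δ) (a j)))
        (fun k => MvPolynomial.X (Sum.inr ⟨j, k⟩)) -
          MvPolynomial.C (algebraMap A (Localization.Away δ) (b j)) : QLPol r N l δ))

/-- the projection -/
noncomputable def qmk : QLPol r N l δ →+* QLRing B l a b δ :=
  Ideal.Quotient.mk (Ideal.span (Set.range (qleq B l a b δ)))

theorem qmk_C (c : Localization.Away δ) : qmk B l a b δ (MvPolynomial.C c) =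
    algebraMap (Localization.Away δ) (QLRing B l a b δ) c := rfl

theorem alg_eq (x : A) : algebraMap A (QLRing B l a b δ) x =
    qmk B l a b δ (MvPolynomial.C (algebraMap A (Localization.Away δ) x)) := rfl

/-- the tautological point is isotropic -/
theorem ql_rel (i : Fin r) :
    bil ((B i).map (algebraMap A (QLRing B l a b δ)))
      (fun j => qmk B l a b δ (MvPolynomial.X (Sum.inl ⟨i, j⟩)))
      (fun j => qmk B l a b δ (MvPolynomial.X (Sum.inl ⟨i, j⟩))) = 0 := by
  have h1 : qmk B l a b δ (∑ j, ∑ k, MvPolynomial.C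
      (algebraMap A (Localization.Away δ) (B i j k)) *
        MvPolynomial.X (Sum.inl ⟨i, j⟩) * MvPolynomial.X (Sum.inl ⟨i, k⟩) : QLPol r N l δ) = 0 :=
    span_rel (qleq B l a b δ) (Sum.inl i)
  rw [map_sum] at h1
  refine Eq.trans ?_ h1
  unfold bil
  refine Finset.sum_congr rfl fun j _ => ?_
  rw [map_sum]
  refine Finset.sum_congr rfl fun k _ => ?_
  rw [map_mul, map_mul, Matrix.map_apply, alg_eq]
  ring

/-- the norm equations -/
theorem ql_rel' (j : Fin s) :
    nf (algebraMap A (QLRing B l a b δ) (a j))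
      (fun k => qmk B l a b δ (MvPolynomial.X (Sum.inr ⟨j, k⟩))) =
      algebraMap A (QLRing B l a b δ) (b j) := by
  have h1 : qmk B l a b δ (nf (MvPolynomial.C (algebraMap A (Localization.Away δ) (a j)))
        (fun k => MvPolynomial.X (Sum.inr ⟨j, k⟩)) -
          MvPolynomial.C (algebraMap A (Localization.Away δ) (b j)) : QLPol r N l δ) = 0 :=
    span_rel (qleq B l a b δ) (Sum.inr j)
  have h2 := map_nf (S := QLRing B l a b δ) (qmk B l a b δ) (MvPolynomial.C (algebraMap A (Localization.Away δ) (a j)))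
    (fun k : Fin (l j) => (MvPolynomial.X (Sum.inr ⟨j, k⟩) : QLPol r N l δ))
  rw [map_sub, sub_eq_zero] at h1
  exact h2.symm.trans h1

/-- homomorphisms out of `QLRing` -/
theorem ql_lift {S : Type} [CommRing S] (g : A →+* S) (hg : IsUnit (g δ))
    (u : ∀ i, Fin (N i) → S) (z : ∀ j, Fin (l j) → S)
    (hu : ∀ i, bil ((B i).map g) (u i) (u i) = 0) (hz : ∀ j, nf (g (a j)) (z j) = g (b j)) :
    ∃ φ : QLRing B l a b δ →+* S, (∀ x, φ (algebraMap A (QLRing B l a b δ) x) = g x) ∧
      (∀ i j, φ (qmk B l a b δ (MvPolynomial.X (Sum.inl ⟨i, j⟩))) = u i j) ∧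
      ∀ j k, φ (qmk B l a b δ (MvPolynomial.X (Sum.inr ⟨j, k⟩))) = z j k := by
  obtain ⟨lB, hlB⟩ : ∃ lB : Localization.Away δ →+* S, ∀ x, lB (algebraMap _ _ x) = g x :=
    ⟨IsLocalization.Away.lift δ hg, fun x => IsLocalization.Away.lift_eq δ hg x⟩
  obtain ⟨φ0, hφC, hφX⟩ : ∃ φ0 : QLPol r N l δ →+* S,
      (∀ c, φ0 (MvPolynomial.C c) = lB c) ∧ ∀ m, φ0 (MvPolynomial.X m) =
        Sum.elim (fun m : (Σ i : Fin r, Fin (N i)) => u m.1 m.2)
          (fun m : (Σ j : Fin s, Fin (l j)) => z m.1 m.2) m :=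
    ⟨MvPolynomial.eval₂Hom lB _, fun c => MvPolynomial.eval₂Hom_C _ _ _,
      fun m => MvPolynomial.eval₂Hom_X' _ _ _⟩
  have h1 : ∀ i, φ0 (∑ j, ∑ k, MvPolynomial.C (algebraMap _ (Localization.Away δ)
        (B i j k)) * MvPolynomial.X (Sum.inl ⟨i, j⟩) *
        MvPolynomial.X (Sum.inl ⟨i, k⟩)) = 0 := by
    intro i
    rw [← hu i, map_sum]
    unfold bil
    refine Finset.sum_congr rfl fun j _ => ?_
    rw [map_sum]
    refine Finset.sum_congr rfl fun k _ => ?_
    rw [map_mul, map_mul, hφC, hφX, hφX, hlB, Matrix.map_apply]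
    show g (B i j k) * u i j * u i k = u i j * g (B i j k) * u i k
    ring
  have h2 : ∀ j, φ0 (nf (MvPolynomial.C (algebraMap A (Localization.Away δ) (a j)))
        (fun k => MvPolynomial.X (Sum.inr ⟨j, k⟩)) -
          MvPolynomial.C (algebraMap A (Localization.Away δ) (b j))) = 0 := by
    intro j
    have h3 := map_nf φ0 (MvPolynomial.C (algebraMap A (Localization.Away δ) (a j)))
      (fun k : Fin (l j) => (MvPolynomial.X (Sum.inr ⟨j, k⟩) : QLPol r N l δ))
    rw [map_sub, hφC, hlB, sub_eq_zero, ← hz j, h3, hφC, hlB]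
    congr 1
    funext k
    exact hφX _
  obtain ⟨φ, hφ⟩ := span_lift (qleq B l a b δ) φ0 (by
    rintro (i | j)
    · exact h1 i
    · exact h2 j)
  refine ⟨φ, fun x => ?_, fun i j => ?_, fun j k => ?_⟩
  · exact (hφ _).trans ((hφC _).trans (hlB _))
  · exact (hφ _).trans (hφX _)
  · exact (hφ _).trans (hφX _)

/-- two homomorphisms out of `QLRing` -/
theorem ql_ext {S : Type} [CommRing S] (f g : QLRing B l a b δ →+* S)
    (h1 : ∀ x : A, f (algebraMap A (QLRing B l a b δ) x) =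
      g (algebraMap A (QLRing B l a b δ) x))
    (h2 : ∀ i j, f (qmk B l a b δ (MvPolynomial.X (Sum.inl ⟨i, j⟩))) =
      g (qmk B l a b δ (MvPolynomial.X (Sum.inl ⟨i, j⟩))))
    (h3 : ∀ j k, f (qmk B l a b δ (MvPolynomial.X (Sum.inr ⟨j, k⟩))) =
      g (qmk B l a b δ (MvPolynomial.X (Sum.inr ⟨j, k⟩)))) : f = g := by
  have h4 : f.comp (algebraMap (Localization.Away δ) (QLRing B l a b δ)) =
      g.comp (algebraMap (Localization.Away δ) (QLRing B l a b δ)) :=
    IsLocalization.ringHom_ext (Submonoid.powers δ) (RingHom.ext h1)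
  have h5 : f.comp (qmk B l a b δ) = g.comp (qmk B l a b δ) := by
    refine MvPolynomial.ringHom_ext (fun c => ?_) fun m => ?_
    · exact congrArg (fun f : Localization.Away δ →+* S => f c) h4
    · rcases m with m | m
      · exact h2 m.1 m.2
      · exact h3 m.1 m.2
  exact Ideal.Quotient.ringHom_ext h5

theorem ql_nontrivial [IsDomain A] (hδ : δ ≠ 0) : Nontrivial (QLRing B l a b δ) := by
  have hinj : Function.Injective ((algebraMap (FractionRing A)
      (AlgebraicClosure (FractionRing A))).comp (algebraMap A (FractionRing A))) :=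
    (algebraMap (FractionRing A) (AlgebraicClosure (FractionRing A))).injective.comp
      (IsFractionRing.injective A (FractionRing A))
  have hroot : ∀ j, ∃ y : AlgebraicClosure (FractionRing A), y ^ l j =
      ((algebraMap (FractionRing A)
      (AlgebraicClosure (FractionRing A))).comp (algebraMap A (FractionRing A))) (b j) :=
    fun j => IsAlgClosed.exists_pow_nat_eq _ (Nat.pos_of_ne_zero (NeZero.ne (l j)))
  choose y hy using hroot
  obtain ⟨φ, -, -, -⟩ := ql_lift B l a b δ ((algebraMap (FractionRing A)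
      (AlgebraicClosure (FractionRing A))).comp (algebraMap A (FractionRing A)))
    (IsUnit.mk0 _ (by rwa [Ne, map_eq_zero_iff _ hinj]))
    (fun _ _ => 0) (fun j k => if k = 0 then y j else 0) (fun i => by simp [bil])
    (fun j => by rw [nf_single]; exact hy j)
  exact φ.domain_nontrivial

end QL

section NR

variable {E : Type} [CommRing E] {r s : ℕ} (l : Fin s → ℕ) [∀ j, NeZero (l j)]
  (a b : Fin r ⊕ Fin s → E)

/-- the equations -/
noncomputable def neq : Fin r ⊕ Fin s → MvPolynomial (Σ i, Fin (lmix r l i)) E := fun i =>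
  (nf (MvPolynomial.C (a i)) (fun k => MvPolynomial.X ⟨i, k⟩) - MvPolynomial.C (b i) :
    MvPolynomial (Σ i, Fin (lmix r l i)) E)

/-- the projection -/
noncomputable def nmk : MvPolynomial (Σ i, Fin (lmix r l i)) E →+* NRing (lmix r l) a b :=
  Ideal.Quotient.mk (Ideal.span (Set.range (neq l a b)))

/-- the two coordinates of a conic -/
noncomputable def cpt (i : Fin r) (k : Fin 2) : NRing (lmix r l) a b :=
  nmk l a b (MvPolynomial.X (⟨Sum.inl i, k⟩ : Σ i, Fin (lmix r l i)))

/-- the coordinates of a norm hypersurface -/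
noncomputable def npt (j : Fin s) (k : Fin (l j)) : NRing (lmix r l) a b :=
  nmk l a b (MvPolynomial.X (⟨Sum.inr j, k⟩ : Σ i, Fin (lmix r l i)))

theorem nr_rel (i : Fin r ⊕ Fin s) :
    nf (algebraMap E (NRing (lmix r l) a b) (a i))
      (fun k => nmk l a b (MvPolynomial.X ⟨i, k⟩)) =
      algebraMap E (NRing (lmix r l) a b) (b i) := by
  have h1 : nmk l a b (neq l a b i) = 0 := span_rel (neq l a b) i
  have h2 := map_nf (S := NRing (lmix r l) a b) (nmk l a b) (MvPolynomial.C (a i))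
    (fun k : Fin (lmix r l i) => (MvPolynomial.X ⟨i, k⟩ : MvPolynomial (Σ i, Fin (lmix r l i)) E))
  unfold neq at h1
  rw [map_sub, sub_eq_zero] at h1
  exact h2.symm.trans h1

theorem nr_rel_inl (i : Fin r) :
    cpt l a b i 0 ^ 2 = algebraMap E (NRing (lmix r l) a b) (a (Sum.inl i)) * cpt l a b i 1 ^ 2 +
      algebraMap E (NRing (lmix r l) a b) (b (Sum.inl i)) := by
  have h2 := nf_two (algebraMap E (NRing (lmix r l) a b) (a (Sum.inl i))) (cpt l a b i)
  have h3 : nf (algebraMap E (NRing (lmix r l) a b) (a (Sum.inl i))) (cpt l a b i) =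
      algebraMap E (NRing (lmix r l) a b) (b (Sum.inl i)) := nr_rel l a b (Sum.inl i)
  rw [h2] at h3
  rw [← h3]
  ring

theorem nr_rel_inr (j : Fin s) :
    nf (algebraMap E (NRing (lmix r l) a b) (a (Sum.inr j))) (npt l a b j) =
      algebraMap E (NRing (lmix r l) a b) (b (Sum.inr j)) := nr_rel l a b (Sum.inr j)

/-- prescribed values of the coordinates -/
def vals {S : Type} (x y : Fin r → S) (z : ∀ j, Fin (l j) → S) :
    ∀ i : Fin r ⊕ Fin s, Fin (lmix r l i) → S
  | Sum.inl i => (![x i, y i] : Fin 2 → S)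
  | Sum.inr j => z j

theorem nr_lift {S : Type} [CommRing S] (g : E →+* S) (x y : Fin r → S) (z : ∀ j, Fin (l j) → S)
    (h : ∀ i, x i ^ 2 = g (a (Sum.inl i)) * y i ^ 2 + g (b (Sum.inl i)))
    (hz : ∀ j, nf (g (a (Sum.inr j))) (z j) = g (b (Sum.inr j))) :
    ∃ θ : NRing (lmix r l) a b →+* S,
      (∀ e, θ (algebraMap E (NRing (lmix r l) a b) e) = g e) ∧
      (∀ i, θ (cpt l a b i 0) = x i) ∧ (∀ i, θ (cpt l a b i 1) = y i) ∧
      ∀ j k, θ (npt l a b j k) = z j k := by
  obtain ⟨θ0, hC, hX⟩ : ∃ θ0 : MvPolynomial (Σ i, Fin (lmix r l i)) E →+* S,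
      (∀ c, θ0 (MvPolynomial.C c) = g c) ∧ ∀ m, θ0 (MvPolynomial.X m) = vals l x y z m.1 m.2 :=
    ⟨MvPolynomial.eval₂Hom g _, fun c => MvPolynomial.eval₂Hom_C _ _ _,
      fun m => MvPolynomial.eval₂Hom_X' _ _ _⟩
  have h1 : ∀ i, nf (g (a i)) (vals l x y z i) = g (b i) := by
    rintro (i | j)
    · have h6 := nf_two (g (a (Sum.inl i))) (![x i, y i] : Fin 2 → S)
      have h7 : nf (g (a (Sum.inl i))) (![x i, y i] : Fin 2 → S) = g (b (Sum.inl i)) := by
        rw [h6]
        show x i ^ 2 - g (a (Sum.inl i)) * y i ^ 2 = _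
        rw [h i]
        ring
      exact h7
    · exact hz j
  obtain ⟨θ, hθ⟩ := span_lift (neq l a b) θ0 (by
    intro i
    have h2 := map_nf θ0 (MvPolynomial.C (a i))
      (fun k : Fin (lmix r l i) => (MvPolynomial.X ⟨i, k⟩ : MvPolynomial (Σ i, Fin (lmix r l i)) E))
    have h5 : (fun k => θ0 (MvPolynomial.X ⟨i, k⟩)) = vals l x y z i := funext fun k => hX _
    unfold neq
    rw [map_sub, h2, h5, hC, hC, h1, sub_self])
  refine ⟨θ, fun e => ?_, fun i => ?_, fun i => ?_, fun j k => ?_⟩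
  · exact (hθ _).trans (hC _)
  · exact (hθ _).trans (hX _)
  · exact (hθ _).trans (hX _)
  · exact (hθ _).trans (hX _)

end NR

end Pool.Agent.Helper33.QL
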